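import Pool.Agent.Q256.KT.ISO

/-!
# Project KT (helper80), job BPR: the probability of a ball
-/

open Finset MeasureTheory Filter Topology
open scoped Classical ENNReal NNReal

noncomputable section

namespace Q256.KT.BPR

open Pool.Agent.Q80.KT Pool.Agent.Q287.SR

/-- `φ` is a witness -/
def IsWit {k : ℕ} (F : SimpleGraph (Fin k)) (u : Fin k) {V : Type} (G : SimpleGraph V) (v : V) (r : ℕ)
    (φ : Fin k → V) : Prop :=
  Function.Injective φ ∧ φ u = v ∧
    (∀ w, (∃ a, φ a = w) ↔ (G.Reachable v w ∧ G.dist v w ≤ r)) ∧ ∀ a b, F.Adj a b ↔ G.Adj (φ a) (φ b)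

/-- the number of witnesses -/
lemma card_wit {n k : ℕ} (F : SimpleGraph (Fin k)) (u : Fin k) (G : SimpleGraph (Fin n)) (v : Fin n) (r : ℕ) :
    ((univ.filter fun φ : Fin k → Fin n => IsWit F u G v r φ).card : ℝ) =
      (autC F u : ℝ) * ind (BallIso F u G v r) := by
  by_cases h : BallIso F u G v r
  · rw [ind, if_pos h, mul_one]
    obtain ⟨φ₀, hinj, h1, h2, h3⟩ := h
    norm_cast
    unfold autC
    symm
    refine card_bij' (fun σ _ => fun a => φ₀ (σ a))
      (fun φ hφ => Equiv.ofBijective (fun a => ((h2 (φ a)).2 (((mem_filter.1 hφ).2.2.2.1 (φ a)).1 ⟨a, rfl⟩)).choose)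
        ?_) ?_ ?_ ?_ ?_
    · have hφ' := (mem_filter.1 hφ).2
      rw [Fintype.bijective_iff_injective_and_card]
      refine ⟨fun a b hab => hφ'.1 ?_, rfl⟩
      have e1 := ((h2 (φ a)).2 ((hφ'.2.2.1 (φ a)).1 ⟨a, rfl⟩)).choose_spec
      have e2 := ((h2 (φ b)).2 ((hφ'.2.2.1 (φ b)).1 ⟨b, rfl⟩)).choose_spec
      rw [← e1, ← e2]
      exact congrArg φ₀ hab
    · intro σ hσ
      obtain ⟨hσ1, hσ2⟩ := (mem_filter.1 hσ).2
      rw [mem_filter]
      refine ⟨mem_univ _, fun a b hab => σ.injective (hinj hab), ?_, fun w => ?_, fun a b => ?_⟩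
      · show φ₀ (σ u) = v
        rw [hσ1, h1]
      · rw [← h2 w]
        constructor
        · rintro ⟨a, ha⟩
          exact ⟨σ a, ha⟩
        · rintro ⟨a, ha⟩
          exact ⟨σ.symm a, by show φ₀ (σ (σ.symm a)) = w; rw [σ.apply_symm_apply, ha]⟩
      · rw [← hσ2 a b, h3]
    · intro φ hφ
      have hφ' := (mem_filter.1 hφ).2
      have e1 : ∀ a, φ₀ (((h2 (φ a)).2 ((hφ'.2.2.1 (φ a)).1 ⟨a, rfl⟩)).choose) = φ a := fun a =>
        ((h2 (φ a)).2 ((hφ'.2.2.1 (φ a)).1 ⟨a, rfl⟩)).choose_spec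
      rw [mem_filter]
      refine ⟨mem_univ _, ?_, fun a b => ?_⟩
      · rw [Equiv.ofBijective_apply]
        exact hinj ((e1 u).trans (hφ'.2.1.trans h1.symm))
      · rw [Equiv.ofBijective_apply, Equiv.ofBijective_apply, h3, e1, e1, hφ'.2.2.2]
    · intro σ hσ
      ext a
      rw [Equiv.ofBijective_apply]
      congr 1
      exact hinj ((h2 (φ₀ (σ a))).2 ((h2 (φ₀ (σ a))).1 ⟨σ a, rfl⟩)).choose_spec
    · intro φ hφ
      funext a
      rw [Equiv.ofBijective_apply]
      exact ((h2 (φ a)).2 (((mem_filter.1 hφ).2.2.2.1 (φ a)).1 ⟨a, rfl⟩)).choose_spec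
  · rw [ind, if_neg h, mul_zero]
    norm_cast
    rw [card_eq_zero, filter_eq_empty_iff]
    intro φ _ hφ
    exact h ⟨φ, hφ.1, hφ.2.1, hφ.2.2.1, hφ.2.2.2⟩

/-- the image graph -/
def gm {n k : ℕ} (F : SimpleGraph (Fin k)) (φ : Fin k → Fin n) (hφ : Function.Injective φ) :
    SimpleGraph (Fin n) where
  Adj x y := ∃ a b, F.Adj a b ∧ φ a = x ∧ φ b = y
  symm := ⟨fun x y ⟨a, b, h, h1, h2⟩ => ⟨b, a, h.symm, h2, h1⟩⟩
  loopless := ⟨fun x ⟨a, b, h, h1, h2⟩ => h.ne (hφ (h1.trans h2.symm))⟩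

/-- the pairs inside the image -/
def D1 {n k : ℕ} (φ : Fin k → Fin n) : Finset (Sym2 (Fin n)) := (pairs k).image (Sym2.map φ)

/-- the pairs between the images of the inner vertices and the outside -/
def D2 {n k : ℕ} (F : SimpleGraph (Fin k)) (u : Fin k) (r : ℕ) (φ : Fin k → Fin n) : Finset (Sym2 (Fin n)) :=
  ((univ.filter fun a => F.dist u a < r) ×ˢ (univ.filter fun y => ∀ a, φ a ≠ y)).image fun x => s(φ x.1, x.2)

lemma mem_D1 {n k : ℕ} {φ : Fin k → Fin n} {e : Sym2 (Fin n)} :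
    e ∈ D1 φ ↔ ∃ a b, a ≠ b ∧ s(φ a, φ b) = e := by
  unfold D1
  rw [mem_image]
  constructor
  · rintro ⟨e', he', rfl⟩
    induction e' using Sym2.ind with
    | _ a b =>
      refine ⟨a, b, ?_, rfl⟩
      have := (mem_filter.1 he').2
      rwa [Sym2.mk_isDiag_iff] at this
  · rintro ⟨a, b, hab, rfl⟩
    refine ⟨s(a, b), mem_filter.2 ⟨mem_univ _, ?_⟩, rfl⟩
    rwa [Sym2.mk_isDiag_iff]

lemma mem_D2 {n k : ℕ} {F : SimpleGraph (Fin k)} {u : Fin k} {r : ℕ} {φ : Fin k → Fin n} {e : Sym2 (Fin n)} :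
    e ∈ D2 F u r φ ↔ ∃ a y, F.dist u a < r ∧ (∀ b, φ b ≠ y) ∧ s(φ a, y) = e := by
  unfold D2
  rw [mem_image]
  constructor
  · rintro ⟨⟨a, y⟩, h, rfl⟩
    rw [mem_product, mem_filter, mem_filter] at h
    exact ⟨a, y, h.1.2, h.2.2, rfl⟩
  · rintro ⟨a, y, h1, h2, rfl⟩
    refine ⟨(a, y), ?_, rfl⟩
    rw [mem_product, mem_filter, mem_filter]
    exact ⟨⟨mem_univ _, h1⟩, mem_univ _, h2⟩

lemma disj {n k : ℕ} {F : SimpleGraph (Fin k)} {u : Fin k} {r : ℕ} {φ : Fin k → Fin n} :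
    Disjoint (D1 φ) (D2 F u r φ) := by
  rw [Finset.disjoint_left]
  intro e h1 h2
  obtain ⟨a, b, -, rfl⟩ := mem_D1.1 h1
  obtain ⟨a', y, -, h3, h4⟩ := mem_D2.1 h2
  rw [Sym2.eq_iff] at h4
  rcases h4 with ⟨-, h5⟩ | ⟨-, h5⟩
  · exact h3 b h5.symm
  · exact h3 a h5.symm

lemma D_sub {n k : ℕ} {F : SimpleGraph (Fin k)} {u : Fin k} {r : ℕ} {φ : Fin k → Fin n}
    (hφ : Function.Injective φ) : D1 φ ∪ D2 F u r φ ⊆ pairs n := by
  intro e he
  rw [mem_union] at he
  refine mem_filter.2 ⟨mem_univ _, ?_⟩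
  rcases he with he | he
  · obtain ⟨a, b, hab, rfl⟩ := mem_D1.1 he
    rw [Sym2.mk_isDiag_iff]
    exact fun h => hab (hφ h)
  · obtain ⟨a, y, -, h3, rfl⟩ := mem_D2.1 he
    rw [Sym2.mk_isDiag_iff]
    exact h3 a

lemma card_D1 {n k : ℕ} {φ : Fin k → Fin n} (hφ : Function.Injective φ) : (D1 φ).card = k.choose 2 := by
  unfold D1
  rw [card_image_of_injective _ (Sym2.map.injective hφ)]
  have h := Sym2.card_subtype_not_diag (α := Fin k)
  rw [Fintype.card_fin] at h
  rw [← h, Fintype.card_subtype]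
  rfl

lemma card_D2 {n k : ℕ} {F : SimpleGraph (Fin k)} {u : Fin k} {r : ℕ} {φ : Fin k → Fin n}
    (hφ : Function.Injective φ) :
    (D2 F u r φ).card = (univ.filter fun a => F.dist u a < r).card * (n - k) := by
  unfold D2
  rw [card_image_of_injOn, card_product]
  · congr 1
    have h1 : (univ.filter fun y : Fin n => ∀ a, φ a ≠ y) = univ \ (univ.image φ) := by
      ext y
      rw [mem_filter, Finset.mem_sdiff, Finset.mem_image]
      constructor
      · rintro ⟨-, h2⟩
        refine ⟨mem_univ _, ?_⟩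
        rintro ⟨a, -, ha⟩
        exact h2 a ha
      · rintro ⟨-, h2⟩
        exact ⟨mem_univ _, fun a ha => h2 ⟨a, mem_univ _, ha⟩⟩
    rw [h1, card_sdiff_of_subset (subset_univ _), card_univ, Fintype.card_fin, card_image_of_injective _ hφ,
      card_univ, Fintype.card_fin]
  · rintro ⟨a, y⟩ h ⟨a', y'⟩ h' heq
    rw [mem_coe, mem_product, mem_filter, mem_filter] at h h'
    have heq' : s(φ a, y) = s(φ a', y') := heq
    rw [Sym2.eq_iff] at heq'
    rcases heq' with ⟨h5, h6⟩ | ⟨h5, h6⟩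
    · rw [hφ h5, h6]
    · exact absurd h5 (h'.2.2 a)

lemma mem_gm {n k : ℕ} {F : SimpleGraph (Fin k)} {φ : Fin k → Fin n} {hφ : Function.Injective φ} {a b : Fin k} :
    (gm F φ hφ).Adj (φ a) (φ b) ↔ F.Adj a b := by
  constructor
  · rintro ⟨a', b', h, h1, h2⟩
    rwa [hφ h1, hφ h2] at h
  · intro h
    exact ⟨a, b, h, rfl, rfl⟩

lemma card_in {n k : ℕ} {F : SimpleGraph (Fin k)} {u : Fin k} {r : ℕ} {φ : Fin k → Fin n}
    (hφ : Function.Injective φ) :
    ((D1 φ ∪ D2 F u r φ).filter fun e => e ∈ (gm F φ hφ).edgeSet).card = F.edgeFinset.card := by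
  rw [← card_image_of_injective F.edgeFinset (Sym2.map.injective hφ)]
  congr 1
  ext e
  rw [mem_filter, mem_image]
  constructor
  · rintro ⟨-, h⟩
    induction e using Sym2.ind with
    | _ x y =>
      obtain ⟨a, b, hab, rfl, rfl⟩ := (SimpleGraph.mem_edgeSet _).1 h
      exact ⟨s(a, b), by rw [SimpleGraph.mem_edgeFinset, SimpleGraph.mem_edgeSet]; exact hab, rfl⟩
  · rintro ⟨e', he', rfl⟩
    induction e' using Sym2.ind with
    | _ a b =>
      rw [SimpleGraph.mem_edgeFinset, SimpleGraph.mem_edgeSet] at he'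
      refine ⟨mem_union_left _ (mem_D1.2 ⟨a, b, he'.ne, rfl⟩), ?_⟩
      show s(φ a, φ b) ∈ _
      rw [SimpleGraph.mem_edgeSet]
      exact mem_gm.2 he'

lemma card_out {n k : ℕ} {F : SimpleGraph (Fin k)} {u : Fin k} {r : ℕ} {φ : Fin k → Fin n}
    (hφ : Function.Injective φ) :
    ((D1 φ ∪ D2 F u r φ).filter fun e => e ∉ (gm F φ hφ).edgeSet).card =
      k.choose 2 - F.edgeFinset.card + (univ.filter fun a => F.dist u a < r).card * (n - k) := by
  have h1 := card_filter_add_card_filter_not (s := D1 φ ∪ D2 F u r φ) (fun e => e ∈ (gm F φ hφ).edgeSet)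
  rw [card_in hφ, card_union_of_disjoint disj, card_D1 hφ, card_D2 hφ] at h1
  have h2 : F.edgeFinset.card ≤ k.choose 2 := by
    have := F.card_edgeFinset_le_card_choose_two
    rwa [Fintype.card_fin] at this
  omega

/-- the witnesses are the maps with the prescribed configuration -/
lemma wit_iff {n k : ℕ} {F : SimpleGraph (Fin k)} {u : Fin k} {r : ℕ} {v : Fin n} {φ : Fin k → Fin n}
    (hφ : Function.Injective φ) (hu : φ u = v) (hc : F.Connected) (hr : ∀ a, F.dist u a ≤ r)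
    (G : SimpleGraph (Fin n)) :
    IsWit F u G v r φ ↔ ∀ e ∈ D1 φ ∪ D2 F u r φ, (e ∈ G.edgeSet ↔ e ∈ (gm F φ hφ).edgeSet) := by
  constructor
  · rintro ⟨-, -, h2, h3⟩ e he
    rw [mem_union] at he
    rcases he with he | he
    · obtain ⟨a, b, -, rfl⟩ := mem_D1.1 he
      rw [SimpleGraph.mem_edgeSet, SimpleGraph.mem_edgeSet, mem_gm, h3]
    · obtain ⟨a, y, h4, h5, rfl⟩ := mem_D2.1 he
      rw [SimpleGraph.mem_edgeSet, SimpleGraph.mem_edgeSet]
      constructor
      · intro h6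
        exfalso
        have h7 := (Q256.KT.ISO.dist_eq hφ hu h2 h3 a).2
        have h8 : G.Reachable v (φ a) := ((h2 (φ a)).1 ⟨a, rfl⟩).1
        obtain ⟨p, hp⟩ := h8.exists_walk_length_eq_dist
        have h9 : G.Reachable v y ∧ G.dist v y ≤ r := by
          refine ⟨h8.trans h6.reachable, ?_⟩
          have := SimpleGraph.dist_le (p.concat h6)
          rw [SimpleGraph.Walk.length_concat, hp] at this
          omega
        obtain ⟨b, hb⟩ := (h2 y).2 h9
        exact h5 b hb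
      · rintro ⟨a', b', -, -, h6⟩
        exact absurd h6 (h5 b')
  · intro h
    have hadj : ∀ a b, F.Adj a b ↔ G.Adj (φ a) (φ b) := by
      intro a b
      by_cases hab : a = b
      · subst hab
        exact ⟨fun h' => absurd rfl h'.ne, fun h' => absurd rfl h'.ne⟩
      · have h1 := h s(φ a, φ b) (mem_union_left _ (mem_D1.2 ⟨a, b, hab, rfl⟩))
        rw [SimpleGraph.mem_edgeSet, SimpleGraph.mem_edgeSet, mem_gm] at h1
        exact h1.symm
    have hout : ∀ a y, F.dist u a < r → G.Adj (φ a) y → ∃ b, φ b = y := by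
      intro a y h1 h2
      by_contra h3
      push Not at h3
      have h4 := h s(φ a, y) (mem_union_right _ (mem_D2.2 ⟨a, y, h1, h3, rfl⟩))
      rw [SimpleGraph.mem_edgeSet, SimpleGraph.mem_edgeSet] at h4
      obtain ⟨a', b', -, -, h6⟩ := h4.1 h2
      exact h3 b' h6
    have hwalk : ∀ (m : ℕ) (w : Fin n) (p : G.Walk w v), p.length = m → m ≤ r → ∃ a, φ a = w ∧ F.dist u a ≤ m := by
      intro m
      induction m with
      | zero =>
        intro w p hp _
        have h4 : w = v := SimpleGraph.Walk.eq_of_length_eq_zero hp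
        exact ⟨u, by rw [hu, h4], by rw [SimpleGraph.dist_self]⟩
      | succ m ih =>
        intro w p hp hm
        obtain ⟨w', p', hp', h', rfl⟩ : ∃ (w' : Fin n) (p' : G.Walk w' v) (_ : p'.length = m) (h : G.Adj w w'),
            p = SimpleGraph.Walk.cons h p' := by
          cases p with
          | nil => simp at hp
          | cons h p' => exact ⟨_, p', by simpa using hp, h, rfl⟩
        obtain ⟨b, rfl, hb⟩ := ih w' p' hp' (by omega)
        obtain ⟨a, rfl⟩ := hout b w (by omega) h'.symm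
        refine ⟨a, rfl, ?_⟩
        have h8 : F.Adj b a := (hadj b a).2 h'.symm
        obtain ⟨q, hq⟩ := (hc.preconnected u b).exists_walk_length_eq_dist
        have := SimpleGraph.dist_le (q.concat h8)
        rw [SimpleGraph.Walk.length_concat, hq] at this
        omega
    refine ⟨hφ, hu, fun w => ⟨?_, ?_⟩, hadj⟩
    · rintro ⟨a, rfl⟩
      obtain ⟨q, hq⟩ := (hc.preconnected u a).exists_walk_length_eq_dist
      let f : F →g G := ⟨φ, fun {x y} h => (hadj x y).1 h⟩
      have h7 : G.Reachable (φ u) (φ a) := ⟨q.map f⟩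
      have h8 : G.dist (φ u) (φ a) ≤ (q.map f).length := SimpleGraph.dist_le (q.map f)
      rw [SimpleGraph.Walk.length_map, hq] at h8
      rw [hu] at h7 h8
      exact ⟨h7, h8.trans (hr a)⟩
    · rintro ⟨h1, h2⟩
      obtain ⟨p, hp⟩ := h1.exists_walk_length_eq_dist
      obtain ⟨a, ha, -⟩ := hwalk _ w p.reverse rfl (by rw [SimpleGraph.Walk.length_reverse, hp]; exact h2)
      exact ⟨a, ha⟩

/-- the number of injective maps with a prescribed value -/
lemma card_inj {n k : ℕ} (u : Fin k) (v : Fin n) :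
    (univ.filter fun φ : Fin k → Fin n => Function.Injective φ ∧ φ u = v).card =
      (n - 1).descFactorial (k - 1) := by
  have h1 : Fintype.card ({a : Fin k // a ≠ u} ↪ {w : Fin n // w ≠ v}) = (n - 1).descFactorial (k - 1) := by
    rw [Fintype.card_embedding_eq]
    congr 1
    · rw [Fintype.card_subtype_compl, Fintype.card_fin, Fintype.card_subtype_eq]
    · rw [Fintype.card_subtype_compl, Fintype.card_fin, Fintype.card_subtype_eq]
  rw [← h1, ← card_univ]
  refine card_bij' (fun φ hφ => ⟨fun a => ⟨φ a.1, fun h => a.2 ((mem_filter.1 hφ).2.1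
      (h.trans (mem_filter.1 hφ).2.2.symm))⟩, fun a b hab => Subtype.ext ((mem_filter.1 hφ).2.1
        (congrArg Subtype.val hab))⟩) (fun ψ _ => fun a => if h : a = u then v else (ψ ⟨a, h⟩).1) ?_ ?_ ?_ ?_
  · intro φ _
    exact mem_univ _
  · intro ψ _
    rw [mem_filter]
    refine ⟨mem_univ _, fun a b hab => ?_, dif_pos rfl⟩
    change (if h : a = u then v else (ψ ⟨a, h⟩).1) = (if h : b = u then v else (ψ ⟨b, h⟩).1) at hab
    by_cases ha : a = u <;> by_cases hb : b = u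
    · rw [ha, hb]
    · rw [dif_pos ha, dif_neg hb] at hab
      exact absurd hab.symm (ψ ⟨b, hb⟩).2
    · rw [dif_neg ha, dif_pos hb] at hab
      exact absurd hab (ψ ⟨a, ha⟩).2
    · rw [dif_neg ha, dif_neg hb] at hab
      have := ψ.injective (Subtype.ext hab)
      exact congrArg Subtype.val this
  · intro φ hφ
    funext a
    by_cases ha : a = u
    · rw [dif_pos ha, ha, (mem_filter.1 hφ).2.2]
    · rw [dif_neg ha]
      rfl
  · intro ψ _
    ext a
    show ((if h : a.1 = u then v else (ψ ⟨a.1, h⟩).1 : Fin n) : ℕ) = ((ψ a).1 : ℕ)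
    rw [dif_neg a.2]

/-- JOB BPR -/
theorem t_BPR (h1 : S_CONF) : S_BPR := by
  intro n k p F u r v _ _ hc hr
  have e1 : (autC F u : ℝ) * Pr n p (fun G => BallIso F u G v r) =
      Ex n p (fun G => ∑ φ : Fin k → Fin n, ind (IsWit F u G v r φ)) := by
    unfold Pr
    rw [← Ex_mul]
    congr 1
    funext G
    rw [← card_wit, card_filter]
    push_cast
    rfl
  rw [e1, Ex_sum]
  have e2 : ∀ φ : Fin k → Fin n, Ex n p (fun G => ind (IsWit F u G v r φ)) =
      if Function.Injective φ ∧ φ u = v then (p ^ F.edgeFinset.card * (1 - p) ^ (k.choose 2 - F.edgeFinset.card +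
      (univ.filter fun a => F.dist u a < r).card * (n - k))) else 0 := by
    intro φ
    by_cases hφ : Function.Injective φ ∧ φ u = v
    · rw [if_pos hφ]
      have h2 := h1 n p (D1 φ ∪ D2 F u r φ) (gm F φ hφ.1) (D_sub hφ.1)
      rw [card_in hφ.1, card_out hφ.1] at h2
      rw [← h2]
      unfold Pr
      congr 1
      funext G
      unfold ind
      by_cases hw : IsWit F u G v r φ
      · rw [if_pos hw, if_pos ((wit_iff hφ.1 hφ.2 hc hr G).1 hw)]
      · rw [if_neg hw, if_neg (fun h => hw ((wit_iff hφ.1 hφ.2 hc hr G).2 h))]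
    · rw [if_neg hφ]
      have h2 : ∀ G : SimpleGraph (Fin n), ind (IsWit F u G v r φ) = 0 := fun G =>
        if_neg (fun h => hφ ⟨h.1, h.2.1⟩)
      simp only [h2]
      exact Ex_const p 0
  rw [sum_congr rfl (fun φ _ => e2 φ), ← sum_filter, sum_const, card_inj, nsmul_eq_mul]

end Q256.KT.BPR
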