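import Pool.Agent.Q80.KT.Stm

/-!
# Project KT (helper80), job ISO
-/

open Finset MeasureTheory Filter Topology
open scoped Classical ENNReal NNReal

noncomputable section

namespace Q256.KT.ISO

open Pool.Agent.Q80.KT

section lift

variable {k : ℕ} {F : SimpleGraph (Fin k)} {u : Fin k} {V : Type} {G : SimpleGraph V} {v : V} {r : ℕ}
  {φ : Fin k → V}

lemma walk_lift (hinj : Function.Injective φ) (h1 : φ u = v)
    (h2 : ∀ w, (∃ a, φ a = w) ↔ (G.Reachable v w ∧ G.dist v w ≤ r))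
    (h3 : ∀ a b, F.Adj a b ↔ G.Adj (φ a) (φ b)) :
    ∀ (m : ℕ) (a : Fin k) (p : G.Walk (φ a) v), p.length = m → m ≤ r → ∃ q : F.Walk a u, q.length = m := by
  intro m
  induction m with
  | zero =>
    intro a p hp _
    have h4 : φ a = v := SimpleGraph.Walk.eq_of_length_eq_zero hp
    have h5 : a = u := hinj (h4.trans h1.symm)
    subst h5
    exact ⟨SimpleGraph.Walk.nil, rfl⟩
  | succ m ih =>
    intro a p hp hm
    obtain ⟨w, p', hp', h, rfl⟩ : ∃ (w : V) (p' : G.Walk w v) (_ : p'.length = m) (h : G.Adj (φ a) w),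
        p = SimpleGraph.Walk.cons h p' := by
      cases p with
      | nil => simp at hp
      | cons h p' => exact ⟨_, p', by simpa using hp, h, rfl⟩
    have h6 : G.Reachable v w ∧ G.dist v w ≤ r := by
      refine ⟨⟨p'.reverse⟩, ?_⟩
      have := SimpleGraph.dist_le p'.reverse
      rw [SimpleGraph.Walk.length_reverse, hp'] at this
      omega
    obtain ⟨b, rfl⟩ := (h2 w).2 h6
    obtain ⟨q, hq⟩ := ih b p' hp' (by omega)
    exact ⟨SimpleGraph.Walk.cons ((h3 a b).2 h) q, by rw [SimpleGraph.Walk.length_cons, hq]⟩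

lemma dist_eq (hinj : Function.Injective φ) (h1 : φ u = v)
    (h2 : ∀ w, (∃ a, φ a = w) ↔ (G.Reachable v w ∧ G.dist v w ≤ r))
    (h3 : ∀ a b, F.Adj a b ↔ G.Adj (φ a) (φ b)) (a : Fin k) :
    F.Reachable u a ∧ F.dist u a = G.dist v (φ a) := by
  obtain ⟨h4, h5⟩ := (h2 (φ a)).1 ⟨a, rfl⟩
  obtain ⟨p, hp⟩ := h4.exists_walk_length_eq_dist
  obtain ⟨q, hq⟩ := walk_lift hinj h1 h2 h3 _ a p.reverse rfl
    (by rw [SimpleGraph.Walk.length_reverse, hp]; exact h5)
  have h6 : F.Reachable u a := ⟨q.reverse⟩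
  refine ⟨h6, le_antisymm ?_ ?_⟩
  · have := SimpleGraph.dist_le q.reverse
    rwa [SimpleGraph.Walk.length_reverse, hq, SimpleGraph.Walk.length_reverse, hp] at this
  · obtain ⟨q', hq'⟩ := h6.exists_walk_length_eq_dist
    let f : F →g G := ⟨φ, fun {x y} h => (h3 x y).1 h⟩
    have h7 := SimpleGraph.dist_le (q'.map f)
    rw [SimpleGraph.Walk.length_map, hq'] at h7
    have h8 : G.dist (φ u) (φ a) ≤ F.dist u a := h7
    rwa [h1] at h8

end lift

/-- JOB ISO -/
theorem t_ISO : S_ISO := by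
  intro n k F u r G v h
  obtain ⟨φ, hinj, h1, h2, h3⟩ := h
  have hd := dist_eq hinj h1 h2 h3
  refine ⟨?_, fun a => ?_, ?_⟩
  · haveI : Nonempty (Fin k) := ⟨u⟩
    exact ⟨fun a b => (hd a).1.symm.trans (hd b).1⟩
  · rw [(hd a).2]
    exact ((h2 (φ a)).1 ⟨a, rfl⟩).2
  · have h4 : sph G v r = (univ.filter fun a => F.dist u a = r).image φ := by
      ext w
      simp only [sph, mem_filter, mem_univ, true_and, mem_image]
      constructor
      · rintro ⟨h5, h6⟩
        obtain ⟨a, rfl⟩ := (h2 w).2 ⟨h5, h6.le⟩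
        exact ⟨a, by rw [(hd a).2, h6], rfl⟩
      · rintro ⟨a, h5, rfl⟩
        exact ⟨((h2 (φ a)).1 ⟨a, rfl⟩).1, by rw [← (hd a).2, h5]⟩
    rw [h4, card_image_of_injective _ hinj]

end Q256.KT.ISO
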